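import Pool.Agent.H32.F14.Iface

/-!
Part BM: b-matchings in bipartite multigraphs, from Hall's theorem.
-/

set_option autoImplicit false

noncomputable section

open Classical

namespace Pool.Agent.H42.F14

open Pool.Agent.H32.F14

theorem bm : StmtBM := by
  intro A P E _ _ _ a p d u h
  -- the degree of a right vertex
  set dg : P → ℕ := fun c => (Finset.univ.filter (fun e => p e = c)).card with hdg
  let L : Type := (Σ x : A, Fin (d x)) ⊕ (Σ c : P, Fin (dg c - u c))
  let N : L → Finset E := fun l => match l with
    | Sum.inl y => Finset.univ.filter (fun e => a e = y.1)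
    | Sum.inr y => Finset.univ.filter (fun e => p e = y.1)
  have hall : ∀ S : Finset L, S.card ≤ (S.biUnion N).card := by
    intro S
    set X : Finset A := Finset.univ.filter (fun x => ∃ i, (Sum.inl ⟨x, i⟩ : L) ∈ S) with hX
    set C : Finset P := Finset.univ.filter (fun c => ∃ i, (Sum.inr ⟨c, i⟩ : L) ∈ S) with hC
    -- the size of S
    have h1 : S.card ≤ ∑ x ∈ X, d x + ∑ c ∈ C, (dg c - u c) := by
      have hsub : S ⊆ (X.sigma (fun x => (Finset.univ : Finset (Fin (d x))))).disjSum
          (C.sigma (fun c => (Finset.univ : Finset (Fin (dg c - u c))))) := by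
        intro l hl
        rcases l with ⟨x, i⟩ | ⟨c, i⟩
        · rw [Finset.inl_mem_disjSum]
          simp only [Finset.mem_sigma, Finset.mem_univ, and_true, hX, Finset.mem_filter, true_and]
          exact ⟨i, hl⟩
        · rw [Finset.inr_mem_disjSum]
          simp only [Finset.mem_sigma, Finset.mem_univ, and_true, hC, Finset.mem_filter, true_and]
          exact ⟨i, hl⟩
      refine (Finset.card_le_card hsub).trans ?_
      rw [Finset.card_disjSum, Finset.card_sigma, Finset.card_sigma]
      simp
    -- the neighbourhood
    have h2 : Finset.univ.filter (fun e => a e ∈ X ∨ p e ∈ C) ⊆ S.biUnion N := by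
      intro e he
      simp only [Finset.mem_filter, Finset.mem_univ, true_and] at he
      rw [Finset.mem_biUnion]
      rcases he with he | he
      · simp only [hX, Finset.mem_filter, Finset.mem_univ, true_and] at he
        obtain ⟨i, hi⟩ := he
        exact ⟨_, hi, by simp [N]⟩
      · simp only [hC, Finset.mem_filter, Finset.mem_univ, true_and] at he
        obtain ⟨i, hi⟩ := he
        exact ⟨_, hi, by simp [N]⟩
    have h3 : (Finset.univ.filter (fun e => a e ∈ X ∨ p e ∈ C)).card =
        ∑ c, (Finset.univ.filter (fun e => (a e ∈ X ∨ p e ∈ C) ∧ p e = c)).card := by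
      rw [Finset.card_eq_sum_card_fiberwise (f := p) (t := Finset.univ) (fun _ _ => Finset.mem_univ _)]
      apply Finset.sum_congr rfl
      intro c _
      rw [Finset.filter_filter]
    have h4 : ∀ c, min (u c) (Finset.univ.filter (fun e => a e ∈ X ∧ p e = c)).card +
        (if c ∈ C then dg c - u c else 0) ≤
        (Finset.univ.filter (fun e => (a e ∈ X ∨ p e ∈ C) ∧ p e = c)).card := by
      intro c
      by_cases hc : c ∈ C
      · have e1 : Finset.univ.filter (fun e => (a e ∈ X ∨ p e ∈ C) ∧ p e = c) =
            Finset.univ.filter (fun e => p e = c) := by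
          apply Finset.filter_congr
          intro e _
          constructor
          · exact fun h => h.2
          · intro h
            exact ⟨Or.inr (by rw [h]; exact hc), h⟩
        have e2 : (Finset.univ.filter (fun e => a e ∈ X ∧ p e = c)).card ≤ dg c := by
          apply Finset.card_le_card
          intro e he
          simp only [Finset.mem_filter, Finset.mem_univ, true_and] at he ⊢
          exact he.2
        rw [e1, if_pos hc]
        change _ ≤ dg c
        omega
      · rw [if_neg hc, add_zero]
        refine (min_le_right _ _).trans ?_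
        apply Finset.card_le_card
        intro e he
        simp only [Finset.mem_filter, Finset.mem_univ, true_and] at he ⊢
        exact ⟨Or.inl he.1, he.2⟩
    calc S.card ≤ ∑ x ∈ X, d x + ∑ c ∈ C, (dg c - u c) := h1
      _ ≤ ∑ c, min (u c) (Finset.univ.filter (fun e => a e ∈ X ∧ p e = c)).card +
          ∑ c, (if c ∈ C then dg c - u c else 0) := by
        apply add_le_add (h X)
        rw [Finset.sum_ite_mem, Finset.univ_inter]
      _ = ∑ c, (min (u c) (Finset.univ.filter (fun e => a e ∈ X ∧ p e = c)).card +
          (if c ∈ C then dg c - u c else 0)) := by rw [Finset.sum_add_distrib]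
      _ ≤ ∑ c, (Finset.univ.filter (fun e => (a e ∈ X ∨ p e ∈ C) ∧ p e = c)).card :=
        Finset.sum_le_sum fun c _ => h4 c
      _ = (Finset.univ.filter (fun e => a e ∈ X ∨ p e ∈ C)).card := h3.symm
      _ ≤ (S.biUnion N).card := Finset.card_le_card h2
  obtain ⟨g, ginj, hg⟩ := (Finset.all_card_le_biUnion_card_iff_exists_injective N).1 hall
  set F : Finset E := Finset.univ.image (fun y : (Σ x : A, Fin (d x)) => g (Sum.inl y)) with hF
  refine ⟨F, ?_, ?_⟩
  · intro x
    have e1 : F.filter (fun e => a e = x) =
        Finset.univ.image (fun i : Fin (d x) => g (Sum.inl ⟨x, i⟩)) := by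
      ext e
      simp only [hF, Finset.mem_filter, Finset.mem_image, Finset.mem_univ, true_and]
      constructor
      · rintro ⟨⟨⟨y, i⟩, rfl⟩, h2⟩
        have h3 := hg (Sum.inl ⟨y, i⟩)
        simp only [N, Finset.mem_filter, Finset.mem_univ, true_and] at h3
        rw [h3] at h2
        subst h2
        exact ⟨i, rfl⟩
      · rintro ⟨i, rfl⟩
        refine ⟨⟨⟨x, i⟩, rfl⟩, ?_⟩
        have h3 := hg (Sum.inl ⟨x, i⟩)
        simpa [N] using h3
    rw [e1, Finset.card_image_of_injective]
    · simp
    · intro i j hij
      have h5 := Sum.inl.inj (ginj hij)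
      simpa using h5
  · intro c
    set Dm : Finset E := Finset.univ.image (fun i : Fin (dg c - u c) => g (Sum.inr ⟨c, i⟩)) with hDm
    have e1 : Dm.card = dg c - u c := by
      rw [hDm, Finset.card_image_of_injective]
      · simp
      · intro i j hij
        have h5 := Sum.inr.inj (ginj hij)
        simpa using h5
    have e2 : Disjoint (F.filter (fun e => p e = c)) Dm := by
      rw [Finset.disjoint_left]
      intro e he he2
      simp only [hF, Finset.mem_filter, Finset.mem_image, Finset.mem_univ, true_and] at he
      simp only [hDm, Finset.mem_image, Finset.mem_univ, true_and] at he2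
      obtain ⟨⟨y, rfl⟩, _⟩ := he
      obtain ⟨i, hi⟩ := he2
      have := ginj hi
      simp at this
    have e3 : F.filter (fun e => p e = c) ∪ Dm ⊆ Finset.univ.filter (fun e => p e = c) := by
      apply Finset.union_subset
      · intro e he
        simp only [Finset.mem_filter, Finset.mem_univ, true_and] at he ⊢
        exact he.2
      · intro e he
        simp only [hDm, Finset.mem_image, Finset.mem_univ, true_and] at he
        obtain ⟨i, rfl⟩ := he
        have h3 := hg (Sum.inr ⟨c, i⟩)
        simpa [N] using h3
    have e4 := Finset.card_le_card e3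
    rw [Finset.card_union_of_disjoint e2, e1] at e4
    change _ ≤ dg c at e4
    omega

end Pool.Agent.H42.F14
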