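import Pool.Agent.H32.F14.Iface

/-!
Part H: the Hungarian part.
-/

set_option autoImplicit false

noncomputable section

open Classical

namespace Pool.Agent.H42.F14

open Pool.Agent.H32.F14

section
variable {S Q E : Type} [Fintype S] [Fintype Q] [Fintype E]

/-- the alternating reachability -/
def rch (a : E → S) (q : E → Q) (F : Finset E) (C0 : Q) : ℕ → Set Q
  | 0 => {C0}
  | n + 1 => rch a q F C0 n ∪ {C' | ∃ C ∈ rch a q F C0 n, ∃ e e', e ∉ F ∧ q e = C ∧ e' ∈ F ∧
      a e' = a e ∧ q e' = C'}

variable {a : E → S} {q : E → Q} {F : Finset E} {C0 : Q}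

lemma card_insert_filter {α : Type} (G : Finset α) (p : α → Prop) (x : α) (hx : x ∉ G) :
    ((insert x G).filter p).card = (G.filter p).card + (if p x then 1 else 0) := by
  rw [Finset.filter_insert]
  split_ifs with h
  · rw [Finset.card_insert_of_notMem]
    intro h2
    exact hx (Finset.mem_filter.1 h2).1
  · rfl

lemma card_erase_filter {α : Type} (G : Finset α) (p : α → Prop) (x : α) (hx : x ∈ G) :
    ((G.erase x).filter p).card + (if p x then 1 else 0) = (G.filter p).card := by
  have h1 := card_insert_filter (G.erase x) p x (Finset.notMem_erase x G)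
  rw [Finset.insert_erase hx] at h1
  exact h1.symm

/-- shifting along an alternating path -/
lemma shift (n : ℕ) : ∀ C ∈ rch a q F C0 n, ∃ F' : Finset E,
    (∀ s, (F'.filter (fun e => a e = s)).card = (F.filter (fun e => a e = s)).card) ∧
    (∀ X, (F'.filter (fun e => q e = X)).card + (if X = C then 1 else 0) =
      (F.filter (fun e => q e = X)).card + (if X = C0 then 1 else 0)) ∧
    (∀ e, q e ∉ rch a q F C0 n → (e ∈ F' ↔ e ∈ F)) ∧
    (∀ e, e ∉ F → q e = C → e ∉ F') := by
  induction n with
  | zero =>
    intro C hC
    simp only [rch, Set.mem_singleton_iff] at hC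
    subst hC
    exact ⟨F, fun _ => rfl, fun _ => rfl, fun _ _ => Iff.rfl, fun _ h _ => h⟩
  | succ n ih =>
    intro C' hC'
    by_cases hmem : C' ∈ rch a q F C0 n
    · obtain ⟨F', h1, h2, h3, h4⟩ := ih C' hmem
      refine ⟨F', h1, h2, fun e he => h3 e ?_, h4⟩
      intro h
      exact he (Or.inl h)
    · have hC2 : ∃ C ∈ rch a q F C0 n, ∃ e e', e ∉ F ∧ q e = C ∧ e' ∈ F ∧
          a e' = a e ∧ q e' = C' := by
        rcases hC' with h | h
        · exact absurd h hmem
        · exact h
      obtain ⟨C, hC, e, e', heF, heC, he'F, haa, he'C⟩ := hC2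
      obtain ⟨F', h1, h2, h3, h4⟩ := ih C hC
      have hCC' : C ≠ C' := by rintro rfl; exact hmem hC
      have heF' : e ∉ F' := h4 e heF heC
      have he'F' : e' ∈ F' := (h3 e' (by rw [he'C]; exact hmem)).2 he'F
      have hee' : e ≠ e' := by
        rintro rfl
        exact heF he'F
      refine ⟨insert e (F'.erase e'), ?_, ?_, ?_, ?_⟩
      · intro s
        have hne : e ∉ F'.erase e' := fun h => heF' (Finset.mem_of_mem_erase h)
        rw [card_insert_filter _ _ _ hne]
        have h5 := card_erase_filter F' (fun e => a e = s) e' he'F'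
        rw [haa] at h5
        rw [h5, h1]
      · intro X
        have hne : e ∉ F'.erase e' := fun h => heF' (Finset.mem_of_mem_erase h)
        rw [card_insert_filter _ _ _ hne]
        have h5 := card_erase_filter F' (fun e => q e = X) e' he'F'
        have h6 := h2 X
        have e1 : (if q e = X then 1 else 0) = (if X = C then 1 else 0) := by
          rw [heC]
          simp only [eq_comm]
        have e2 : (if q e' = X then 1 else 0) = (if X = C' then 1 else 0) := by
          rw [he'C]
          simp only [eq_comm]
        rw [e1]
        rw [e2] at h5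
        omega
      · intro x hx
        have hx1 : q x ∉ rch a q F C0 n := fun h => hx (Or.inl h)
        have hx2 : x ≠ e := by
          rintro rfl
          exact hx1 (by rw [heC]; exact hC)
        have hx3 : x ≠ e' := by
          rintro rfl
          apply hx
          right
          exact ⟨C, hC, e, x, heF, heC, he'F, haa, rfl⟩
        rw [Finset.mem_insert, Finset.mem_erase]
        constructor
        · rintro (h | h)
          · exact absurd h hx2
          · exact (h3 x hx1).1 h.2
        · intro h
          exact Or.inr ⟨hx3, (h3 x hx1).2 h⟩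
      · intro x hxF hxC
        rw [Finset.mem_insert, Finset.mem_erase]
        rintro (h | h)
        · rw [h, heC] at hxC
          exact hCC' hxC
        · exact hxF ((h3 x (by rw [hxC]; exact hmem)).1 h.2)

/-- reached points other than the start -/
lemma reached (n : ℕ) : ∀ C ∈ rch a q F C0 n, C ≠ C0 → ∃ e e', e ∉ F ∧ e' ∈ F ∧ a e' = a e ∧
    q e' = C ∧ ∃ m, q e ∈ rch a q F C0 m := by
  induction n with
  | zero =>
    intro C hC hne
    exact absurd hC hne
  | succ n ih =>
    intro C hC hne
    rcases hC with h | ⟨D, hD, e, e', h1, h2, h3, h4, h5⟩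
    · exact ih C h hne
    · exact ⟨e, e', h1, h3, h4, h5, n, by rw [h2]; exact hD⟩

lemma card_eq_sum_left (G : Finset E) (R : Finset S) :
    (G.filter (fun e => a e ∈ R)).card = ∑ s ∈ R, (G.filter (fun e => a e = s)).card := by
  rw [Finset.card_eq_sum_card_fiberwise (f := a) (t := R)]
  · apply Finset.sum_congr rfl
    intro s hs
    congr 1
    ext e
    simp only [Finset.mem_filter]
    constructor
    · rintro ⟨⟨h1, _⟩, h3⟩; exact ⟨h1, h3⟩
    · rintro ⟨h1, h2⟩; exact ⟨⟨h1, by rw [h2]; exact hs⟩, h2⟩
  · intro e he
    simp only [Finset.coe_filter, Set.mem_setOf_eq] at he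
    exact he.2

lemma card_eq_sum_right (G : Finset E) (B : Finset Q) :
    (G.filter (fun e => q e ∈ B)).card = ∑ C ∈ B, (G.filter (fun e => q e = C)).card :=
  card_eq_sum_left (a := q) G B

end

theorem h (hBM : StmtBM) : StmtH := by
  intro S Q E _ _ _ a q ks u req hks hdeg hu hreq hm
  set dS : Finset E → S → ℕ := fun F s => (F.filter (fun e => a e = s)).card with hdS
  set dQ : Finset E → Q → ℕ := fun F C => (F.filter (fun e => q e = C)).card with hdQ
  let Val : Finset E → Prop := fun F => (∀ s, dS F s = 1 ∨ dS F s = ks s) ∧ ∀ C, dQ F C ≤ u C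
  have hu1 : ∀ C, 1 ≤ u C := fun C => by rcases hu C with h | h <;> omega
  -- a valid set
  have hex : ∃ F, Val F := by
    obtain ⟨m, hm1, hm2⟩ := hm
    have hminj : Function.Injective m := fun s t h => hm2 (by simp only [h])
    refine ⟨Finset.univ.image m, ?_, ?_⟩
    · intro s
      left
      simp only [hdS]
      have : (Finset.univ.image m).filter (fun e => a e = s) = {m s} := by
        ext e
        simp only [Finset.mem_filter, Finset.mem_image, Finset.mem_univ, true_and,
          Finset.mem_singleton]
        constructor
        · rintro ⟨⟨t, rfl⟩, h2⟩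
          rw [hm1] at h2
          rw [h2]
        · rintro rfl
          exact ⟨⟨s, rfl⟩, hm1 s⟩
      rw [this, Finset.card_singleton]
    · intro C
      refine le_trans ?_ (hu1 C)
      simp only [hdQ]
      rw [Finset.card_le_one]
      intro x hx y hy
      simp only [Finset.mem_filter, Finset.mem_image, Finset.mem_univ, true_and] at hx hy
      obtain ⟨⟨s, rfl⟩, h1⟩ := hx
      obtain ⟨⟨t, rfl⟩, h2⟩ := hy
      rw [hm2 (show (fun s => q (m s)) s = (fun s => q (m s)) t from h1.trans h2.symm)]
  -- the measure
  set n4 : Finset E → ℕ := fun F => (Finset.univ.filter (fun s => ks s = 4 ∧ dS F s = 4)).card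
    with hn4
  set cov : Finset E → ℕ := fun F => (Finset.univ.filter (fun C => req C ∧ 1 ≤ dQ F C)).card
    with hcov
  have hcovle : ∀ F, cov F ≤ Fintype.card Q := fun F => Finset.card_le_univ _
  obtain ⟨F, hFv, hFmax⟩ : ∃ F, Val F ∧ ∀ F', Val F' → n4 F' * (Fintype.card Q + 1) + cov F' ≤
      n4 F * (Fintype.card Q + 1) + cov F := by
    obtain ⟨F₀, hF₀⟩ := hex
    obtain ⟨F, hF, hFm⟩ := Finset.exists_max_image
      (Finset.univ.filter Val) (fun F => n4 F * (Fintype.card Q + 1) + cov F)
      ⟨F₀, Finset.mem_filter.2 ⟨Finset.mem_univ _, hF₀⟩⟩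
    exact ⟨F, (Finset.mem_filter.1 hF).2, fun F' hF' =>
      hFm F' (Finset.mem_filter.2 ⟨Finset.mem_univ _, hF'⟩)⟩
  have hmax4 : ∀ F', Val F' → n4 F' ≤ n4 F := by
    intro F' hF'
    by_contra hc
    push Not at hc
    have h1 := hFmax F' hF'
    have h2 := hcovle F
    have h3 : (n4 F + 1) * (Fintype.card Q + 1) ≤ n4 F' * (Fintype.card Q + 1) :=
      Nat.mul_le_mul_right _ hc
    rw [Nat.add_mul, one_mul] at h3
    omega
  have hmaxc : ∀ F', Val F' → n4 F' = n4 F → cov F' ≤ cov F := by
    intro F' hF' h4
    have h1 := hFmax F' hF'
    rw [h4] at h1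
    omega
  by_cases hall : ∀ C, req C → 1 ≤ dQ F C
  · left
    exact ⟨F, hFv.1, hFv.2, hall⟩
  right
  push Not at hall
  obtain ⟨C0, hC0r, hC0'⟩ := hall
  have hC0 : dQ F C0 = 0 := by omega
  -- the alternating structure
  set B : Finset Q := Finset.univ.filter (fun C => ∃ n, C ∈ rch a q F C0 n) with hB
  have hBmem : ∀ C, C ∈ B ↔ ∃ n, C ∈ rch a q F C0 n := by
    intro C; simp [hB]
  set R : Finset S := Finset.univ.filter (fun s => ∃ e, a e = s ∧ q e ∈ B) with hR
  have hRmem : ∀ s, s ∈ R ↔ ∃ e, a e = s ∧ q e ∈ B := by
    intro s; simp [hR]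
  have hC0B : C0 ∈ B := (hBmem C0).2 ⟨0, rfl⟩
  have hclosed : ∀ e e', e ∉ F → q e ∈ B → e' ∈ F → a e' = a e → q e' ∈ B := by
    intro e e' h1 h2 h3 h4
    obtain ⟨n, hn⟩ := (hBmem _).1 h2
    exact (hBmem _).2 ⟨n + 1, Or.inr ⟨q e, hn, e, e', h1, rfl, h3, h4, rfl⟩⟩
  have hshift : ∀ C ∈ B, ∃ F' : Finset E, (∀ s, dS F' s = dS F s) ∧
      (∀ X, dQ F' X + (if X = C then 1 else 0) = dQ F X + (if X = C0 then 1 else 0)) ∧
      (∀ e, e ∉ F → q e = C → e ∉ F') := by
    intro C hC
    obtain ⟨n, hn⟩ := (hBmem _).1 hC
    obtain ⟨F', h1, h2, _, h4⟩ := shift n C hn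
    exact ⟨F', h1, h2, h4⟩
  -- a general improvement argument
  have himp : ∀ F', (∀ s, dS F' s = dS F s) → (∀ X, dQ F' X ≤ u X) →
      (∀ X, req X → 1 ≤ dQ F X → 1 ≤ dQ F' X) → 1 ≤ dQ F' C0 → False := by
    intro F' h1 h2 h3 h4
    have hv : Val F' := ⟨fun s => by rw [h1]; exact hFv.1 s, h2⟩
    have hn : n4 F' = n4 F := by simp only [hn4, h1]
    have h5 := hmaxc F' hv hn
    have h6 : cov F < cov F' := by
      simp only [hcov]
      apply Finset.card_lt_card
      rw [Finset.ssubset_iff_of_subset]
      · refine ⟨C0, by simp [hC0r, h4], by simp [hC0]⟩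
      · intro X hX
        simp only [Finset.mem_filter, Finset.mem_univ, true_and] at hX ⊢
        exact ⟨hX.1, h3 X hX.1 hX.2⟩
    omega
  have hQle : ∀ C ∈ B, ∀ F', (∀ X, dQ F' X + (if X = C then 1 else 0) =
      dQ F X + (if X = C0 then 1 else 0)) → ∀ X, dQ F' X ≤ u X := by
    intro C _ F' h X
    have h1 := h X
    have h2 := hFv.2 X
    have h3 := hu1 X
    by_cases hX : X = C0
    · subst hX
      simp only [if_true] at h1
      omega
    · rw [if_neg hX] at h1
      omega
  -- (1)
  have hBreq : ∀ C ∈ B, req C := by
    intro C hC
    by_contra hn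
    obtain ⟨F', h1, h2, _⟩ := hshift C hC
    have hne : C ≠ C0 := by rintro rfl; exact hn hC0r
    refine himp F' h1 (hQle C hC F' h2) ?_ ?_
    · intro X hX hX1
      have h3 := h2 X
      have : X ≠ C := by rintro rfl; exact hn hX
      rw [if_neg this] at h3
      omega
    · have h3 := h2 C0
      rw [if_neg (Ne.symm hne), if_pos rfl] at h3
      omega
  have hBle : ∀ C ∈ B, dQ F C ≤ 1 := by
    intro C hC
    by_contra hn
    push Not at hn
    obtain ⟨F', h1, h2, _⟩ := hshift C hC
    have hne : C ≠ C0 := by rintro rfl; omega
    refine himp F' h1 (hQle C hC F' h2) ?_ ?_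
    · intro X hX hX1
      have h3 := h2 X
      by_cases hXC : X = C
      · subst hXC
        rw [if_pos rfl, if_neg hne] at h3
        omega
      · rw [if_neg hXC] at h3
        omega
    · have h3 := h2 C0
      rw [if_neg (Ne.symm hne), if_pos rfl] at h3
      omega
  have hBge : ∀ C ∈ B, C ≠ C0 → 1 ≤ dQ F C := by
    intro C hC hne
    obtain ⟨n, hn⟩ := (hBmem _).1 hC
    obtain ⟨e, e', _, h2, _, h4, _⟩ := reached n C hn hne
    simp only [hdQ]
    rw [Nat.one_le_iff_ne_zero, Ne, Finset.card_eq_zero]
    intro h
    have : e' ∈ F.filter (fun e => q e = C) := Finset.mem_filter.2 ⟨h2, h4⟩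
    rw [h] at this
    simp at this
  -- (2)
  have hRout : ∀ s ∈ R, ∃ e, e ∉ F ∧ a e = s ∧ q e ∈ B := by
    intro s hs
    obtain ⟨e, h1, h2⟩ := (hRmem s).1 hs
    by_cases heF : e ∈ F
    · have hne : q e ≠ C0 := by
        intro h
        have : e ∈ F.filter (fun e => q e = C0) := Finset.mem_filter.2 ⟨heF, h⟩
        have h0 : F.filter (fun e => q e = C0) = ∅ := Finset.card_eq_zero.1 hC0
        rw [h0] at this
        simp at this
      obtain ⟨n, hn⟩ := (hBmem _).1 h2
      obtain ⟨e3, e', h3, h4, h5, h6, m, h7⟩ := reached n (q e) hn hne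
      have hee : e' = e := by
        have hc := hBle _ h2
        simp only [hdQ] at hc
        rw [Finset.card_le_one] at hc
        exact hc e' (Finset.mem_filter.2 ⟨h4, h6⟩) e (Finset.mem_filter.2 ⟨heF, rfl⟩)
      refine ⟨e3, h3, ?_, (hBmem _).2 ⟨m, h7⟩⟩
      rw [← h5, hee, h1]
    · exact ⟨e, heF, h1, h2⟩
  have hRF : ∀ e ∈ F, a e ∈ R → q e ∈ B := by
    intro e he haR
    obtain ⟨e2, h1, h2, h3⟩ := hRout _ haR
    exact hclosed e2 e h1 h3 he h2.symm
  -- (3)
  have hR2 : ∀ s ∈ R, ks s = 2 → dS F s = 2 := by
    intro s hs hk
    rcases hFv.1 s with h1 | h1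
    · exfalso
      obtain ⟨e, he1, he2, he3⟩ := hRout s hs
      obtain ⟨F', g1, g2, g3⟩ := hshift _ he3
      have heF' : e ∉ F' := g3 e he1 rfl
      set G := insert e F' with hG
      have gS : ∀ t, dS G t = dS F t + (if s = t then 1 else 0) := by
        intro t
        simp only [hdS, hG]
        rw [card_insert_filter _ _ _ heF', he2]
        have := g1 t
        simp only [hdS] at this
        rw [this]
      have gQ : ∀ X, dQ G X = dQ F X + (if X = C0 then 1 else 0) := by
        intro X
        have h3 : dQ G X = dQ F' X + (if q e = X then 1 else 0) := by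
          simp only [hdQ, hG]
          rw [card_insert_filter _ _ _ heF']
        have h4 := g2 X
        have e1 : (if q e = X then 1 else 0) = (if X = q e then 1 else 0) := by
          simp only [eq_comm]
        rw [h3, e1]
        exact h4
      have hv : Val G := by
        constructor
        · intro t
          rw [gS]
          by_cases hst : s = t
          · subst hst
            rw [if_pos rfl]
            right
            omega
          · rw [if_neg hst]
            exact hFv.1 t
        · intro X
          rw [gQ]
          have h3 := hFv.2 X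
          have h4 := hu1 X
          by_cases hX : X = C0
          · subst hX
            rw [if_pos rfl]
            omega
          · rw [if_neg hX]
            omega
      have hn : n4 G = n4 F := by
        simp only [hn4]
        congr 1
        apply Finset.filter_congr
        intro t _
        rw [gS]
        by_cases hst : s = t
        · subst hst
          constructor <;> intro h <;> omega
        · rw [if_neg hst, add_zero]
      have h5 := hmaxc G hv hn
      have h6 : cov F < cov G := by
        simp only [hcov]
        apply Finset.card_lt_card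
        rw [Finset.ssubset_iff_of_subset]
        · refine ⟨C0, ?_, by simp [hC0]⟩
          simp only [Finset.mem_filter, Finset.mem_univ, true_and]
          refine ⟨hC0r, ?_⟩
          rw [gQ, if_pos rfl]
          omega
        · intro X hX
          simp only [Finset.mem_filter, Finset.mem_univ, true_and] at hX ⊢
          refine ⟨hX.1, ?_⟩
          rw [gQ]
          omega
      omega
    · rw [h1, hk]
  -- counting
  have hcount : B.card = ∑ s ∈ R, dS F s + 1 := by
    have h1 : ∑ s ∈ R, dS F s = (F.filter (fun e => a e ∈ R)).card := by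
      rw [card_eq_sum_left]
    have h2 : ∑ C ∈ B, dQ F C = (F.filter (fun e => q e ∈ B)).card := by
      rw [card_eq_sum_right]
    have h3 : F.filter (fun e => a e ∈ R) = F.filter (fun e => q e ∈ B) := by
      apply Finset.filter_congr
      intro e he
      exact ⟨hRF e he, fun h => (hRmem _).2 ⟨e, rfl, h⟩⟩
    have h4 : ∑ C ∈ B, dQ F C + 1 = B.card := by
      rw [← Finset.add_sum_erase B _ hC0B, hC0, zero_add]
      have : ∑ C ∈ B.erase C0, dQ F C = ∑ C ∈ B.erase C0, 1 := by
        apply Finset.sum_congr rfl
        intro C hC
        rw [Finset.mem_erase] at hC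
        have := hBle C hC.2
        have := hBge C hC.2 hC.1
        omega
      rw [this, Finset.sum_const, smul_eq_mul, mul_one, Finset.card_erase_of_mem hC0B]
      have : 0 < B.card := Finset.card_pos.2 ⟨C0, hC0B⟩
      omega
    rw [h1, h3, ← h2, h4]
  -- the rank dominates the demand
  have hrank : ∀ A : Finset S, A ⊆ R → ∀ C ∈ B,
      (F.filter (fun e => a e ∈ A ∧ q e = C)).card ≤
        min (u C) (Finset.univ.filter (fun e => a e ∈ A ∧ q e = C)).card := by
    intro A _ C _
    apply le_min
    · refine le_trans (Finset.card_le_card ?_) (hFv.2 C)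
      intro e he
      simp only [Finset.mem_filter] at he ⊢
      exact ⟨he.1, he.2.2⟩
    · apply Finset.card_le_card
      intro e he
      simp only [Finset.mem_filter, Finset.mem_univ, true_and] at he ⊢
      exact he.2
  have hdemsum : ∀ A : Finset S, A ⊆ R → ∑ s ∈ A, dS F s =
      ∑ C ∈ B, (F.filter (fun e => a e ∈ A ∧ q e = C)).card := by
    intro A hA
    have h1 : ∑ s ∈ A, dS F s = (F.filter (fun e => a e ∈ A)).card := by
      rw [card_eq_sum_left]
    have h2 : F.filter (fun e => a e ∈ A) = (F.filter (fun e => a e ∈ A)).filter (fun e => q e ∈ B) := by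
      rw [Finset.filter_filter]
      apply Finset.filter_congr
      intro e he
      exact ⟨fun h => ⟨h, hRF e he (hA h)⟩, fun h => h.1⟩
    rw [h1, h2, card_eq_sum_right]
    apply Finset.sum_congr rfl
    intro C _
    rw [Finset.filter_filter]
  have hpos : ∀ A ⊆ R, A.Nonempty → ∑ s ∈ A, dS F s + 1 ≤
      ∑ C ∈ B, min (u C) (Finset.univ.filter (fun e => a e ∈ A ∧ q e = C)).card := by
    intro A hA hAne
    by_contra hcon
    have h1 : ∑ C ∈ B, min (u C) (Finset.univ.filter (fun e => a e ∈ A ∧ q e = C)).card ≤
        ∑ C ∈ B, (F.filter (fun e => a e ∈ A ∧ q e = C)).card := by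
      rw [← hdemsum A hA]
      omega
    have h2 : ∀ C ∈ B, min (u C) (Finset.univ.filter (fun e => a e ∈ A ∧ q e = C)).card ≤
        (F.filter (fun e => a e ∈ A ∧ q e = C)).card := by
      intro C hC
      by_contra hlt
      push Not at hlt
      have := Finset.sum_lt_sum (fun C hC => hrank A hA C hC) ⟨C, hC, hlt⟩
      omega
    -- every reached point has no F-edge into A
    have h3 : ∀ n, ∀ C ∈ rch a q F C0 n, ∀ e ∈ F, q e = C → a e ∉ A := by
      intro n
      induction n with
      | zero =>
        intro C hC e he hq _
        have hC' : C = C0 := hC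
        rw [hC'] at hq
        have : e ∈ F.filter (fun e => q e = C0) := Finset.mem_filter.2 ⟨he, hq⟩
        have h0 : F.filter (fun e => q e = C0) = ∅ := Finset.card_eq_zero.1 hC0
        rw [h0] at this
        simp at this
      | succ n ih =>
        intro C hC e he hq haA
        rcases hC with h | ⟨D, hD, e1, e', g1, g2, g3, g4, g5⟩
        · exact ih C h e he hq haA
        · have hCB : C ∈ B := (hBmem _).2 ⟨n + 1, Or.inr ⟨D, hD, e1, e', g1, g2, g3, g4, g5⟩⟩
          have hDB : D ∈ B := (hBmem _).2 ⟨n, hD⟩
          have hee : e' = e := by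
            have hc := hBle _ hCB
            simp only [hdQ] at hc
            rw [Finset.card_le_one] at hc
            exact hc e' (Finset.mem_filter.2 ⟨g3, g5⟩) e (Finset.mem_filter.2 ⟨he, hq⟩)
          have h5 : a e1 ∈ A := by rw [← g4, hee]; exact haA
          have h6 := h2 D hDB
          have h7 : 1 ≤ (Finset.univ.filter (fun e => a e ∈ A ∧ q e = D)).card := by
            rw [Nat.one_le_iff_ne_zero, Ne, Finset.card_eq_zero]
            intro h
            have : e1 ∈ Finset.univ.filter (fun e => a e ∈ A ∧ q e = D) := by
              simp [h5, g2]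
            rw [h] at this
            simp at this
          have h8 := hu1 D
          have h9 : 1 ≤ (F.filter (fun e => a e ∈ A ∧ q e = D)).card :=
            le_trans (le_min h8 h7) h6
          obtain ⟨x, hx⟩ := Finset.card_pos.1 h9
          simp only [Finset.mem_filter] at hx
          exact ih D hD x hx.1 hx.2.2 hx.2.1
    obtain ⟨s, hs⟩ := hAne
    have h4 : 1 ≤ dS F s := by
      rcases hFv.1 s with h | h
      · omega
      · rcases hks s with h' | h' | h' <;> omega
    obtain ⟨e, he⟩ := Finset.card_pos.1 h4
    simp only [Finset.mem_filter] at he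
    have h5 := hRF e he.1 (by rw [he.2]; exact hA hs)
    obtain ⟨n, hn⟩ := (hBmem _).1 h5
    exact h3 n _ hn e he.1 rfl (by rw [he.2]; exact hs)
  refine ⟨R, B, dS F, hBreq, fun e he => (hRmem _).2 ⟨e, rfl, he⟩, ?_, hcount, hpos, ?_⟩
  · intro s hs
    rcases hks s with h | h | h
    · right; right
      rcases hFv.1 s with h' | h' <;> exact ⟨h, by omega⟩
    · right; left
      exact ⟨h, hR2 s hs h⟩
    · left
      rcases hFv.1 s with h' | h'
      · exact ⟨h, Or.inl h'⟩
      · exact ⟨h, Or.inr (by omega)⟩
  · intro s hs
    by_cases hds : dS F s = ks s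
    · refine ⟨{s}, by simpa using hs, by simp, ?_⟩
      rw [Finset.sum_singleton]
      have h1 : ∑ C ∈ B, min (u C) (Finset.univ.filter (fun e => a e ∈ ({s} : Finset S) ∧ q e = C)).card
          ≤ (Finset.univ.filter (fun e => a e = s)).card := by
        have h2 : ∑ C ∈ B, (Finset.univ.filter (fun e => a e ∈ ({s} : Finset S) ∧ q e = C)).card ≤
            (Finset.univ.filter (fun e => a e = s)).card := by
          have h3 : ∑ C ∈ B, (Finset.univ.filter (fun e => a e ∈ ({s} : Finset S) ∧ q e = C)).card =
              ((Finset.univ.filter (fun e => a e = s)).filter (fun e => q e ∈ B)).card := by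
            rw [card_eq_sum_right]
            apply Finset.sum_congr rfl
            intro C _
            rw [Finset.filter_filter]
            simp only [Finset.mem_singleton]
          rw [h3]
          exact Finset.card_filter_le _ _
        exact (Finset.sum_le_sum fun C _ => min_le_right _ _).trans h2
      have h2 := hdeg s
      omega
    · -- the case of a possible rise
      have h4 : ks s = 4 ∧ dS F s = 1 := by
        rcases hFv.1 s with h' | h'
        · rcases hks s with h | h | h
          · omega
          · have := hR2 s hs h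
            omega
          · exact ⟨h, h'⟩
        · exact absurd h' hds
      by_contra hcon
      push Not at hcon
      -- apply BM
      obtain ⟨G, hG1, hG2⟩ := hBM {x // x ∈ R} {C // C ∈ B} {e : E // q e ∈ B}
        (fun e => ⟨a e.1, (hRmem _).2 ⟨e.1, rfl, e.2⟩⟩) (fun e => ⟨q e.1, e.2⟩)
        (fun x => if x.1 = s then 4 else dS F x.1) (fun C => u C.1) (by
          intro X
          set A : Finset S := X.map (Function.Embedding.subtype _) with hA
          have hAR : A ⊆ R := by
            intro x hx
            simp only [hA, Finset.mem_map, Function.Embedding.coe_subtype] at hx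
            obtain ⟨y, _, rfl⟩ := hx
            exact y.2
          have hAmem : ∀ x : {x // x ∈ R}, x ∈ X ↔ x.1 ∈ A := by
            intro x
            simp only [hA, Finset.mem_map, Function.Embedding.coe_subtype]
            constructor
            · intro h; exact ⟨x, h, rfl⟩
            · rintro ⟨y, hy, hxy⟩
              rwa [← Subtype.ext hxy]
          have e1 : ∑ x ∈ X, (if x.1 = s then 4 else dS F x.1) =
              ∑ x ∈ A, (if x = s then 4 else dS F x) := by
            rw [hA, Finset.sum_map]
            rfl
          have e2 : ∑ c : {C // C ∈ B}, min (u c.1) (Finset.univ.filter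
              (fun e : {e : E // q e ∈ B} => (⟨a e.1, (hRmem _).2 ⟨e.1, rfl, e.2⟩⟩ : {x // x ∈ R}) ∈ X ∧
                (⟨q e.1, e.2⟩ : {C // C ∈ B}) = c)).card =
              ∑ C ∈ B, min (u C) (Finset.univ.filter (fun e => a e ∈ A ∧ q e = C)).card := by
            rw [← Finset.sum_coe_sort B]
            apply Finset.sum_congr rfl
            intro c _
            congr 1
            rw [← Finset.card_map (Function.Embedding.subtype _)]
            congr 1
            ext e
            simp only [Finset.mem_map, Finset.mem_filter, Finset.mem_univ, true_and,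
              Function.Embedding.coe_subtype]
            constructor
            · rintro ⟨y, ⟨h1, h2⟩, rfl⟩
              refine ⟨(hAmem _).1 h1, ?_⟩
              have := congrArg Subtype.val h2
              simpa using this
            · rintro ⟨h1, h2⟩
              refine ⟨⟨e, by rw [h2]; exact c.2⟩, ⟨(hAmem _).2 h1, Subtype.ext h2⟩, rfl⟩
          rw [e1]
          refine le_of_le_of_eq (b := ∑ C ∈ B, min (u C)
            (Finset.univ.filter (fun e => a e ∈ A ∧ q e = C)).card) ?_ (by
              rw [← e2]
              apply Finset.sum_congr rfl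
              intro c _
              congr!)
          by_cases hsA : s ∈ A
          · have h5 := hcon A hAR hsA
            have h6 : ∑ x ∈ A, (if x = s then 4 else dS F x) = ∑ x ∈ A, dS F x + 3 := by
              rw [← Finset.add_sum_erase A _ hsA, ← Finset.add_sum_erase A (dS F) hsA, if_pos rfl,
                h4.2]
              have : ∑ x ∈ A.erase s, (if x = s then 4 else dS F x) = ∑ x ∈ A.erase s, dS F x := by
                apply Finset.sum_congr rfl
                intro x hx
                rw [if_neg (Finset.ne_of_mem_erase hx)]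
              rw [this]
              ring
            omega
          · have h6 : ∑ x ∈ A, (if x = s then 4 else dS F x) = ∑ x ∈ A, dS F x := by
              apply Finset.sum_congr rfl
              intro x hx
              rw [if_neg (by rintro rfl; exact hsA hx)]
            rw [h6, hdemsum A hAR]
            exact Finset.sum_le_sum fun C hC => hrank A hAR C hC)
      set G' : Finset E := G.map (Function.Embedding.subtype _) ∪ F.filter (fun e => a e ∉ R) with hG'
      have hGB : ∀ e ∈ G.map (Function.Embedding.subtype _), q e ∈ B := by
        intro e he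
        simp only [Finset.mem_map, Function.Embedding.coe_subtype] at he
        obtain ⟨y, _, rfl⟩ := he
        exact y.2
      have hSR : ∀ t ∈ R, dS G' t = (if t = s then 4 else dS F t) := by
        intro t ht
        have h5 := hG1 ⟨t, ht⟩
        simp only at h5
        rw [← h5, hG']
        simp only [hdS]
        rw [← Finset.card_map (Function.Embedding.subtype _)]
        congr 1
        ext e
        simp only [Finset.mem_filter, Finset.mem_union, Finset.mem_map,
          Function.Embedding.coe_subtype]
        constructor
        · rintro ⟨h1 | h1, h2⟩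
          · obtain ⟨y, hy, rfl⟩ := h1
            exact ⟨y, ⟨hy, Subtype.ext h2⟩, rfl⟩
          · rw [h2] at h1
            exact absurd ht h1.2
        · rintro ⟨y, ⟨hy, h2⟩, rfl⟩
          have h3 := congrArg Subtype.val h2
          simp only at h3
          exact ⟨Or.inl ⟨y, hy, rfl⟩, h3⟩
      have hSn : ∀ t, t ∉ R → dS G' t = dS F t := by
        intro t ht
        rw [hG']
        simp only [hdS]
        congr 1
        ext e
        simp only [Finset.mem_filter, Finset.mem_union]
        constructor
        · rintro ⟨h1 | h1, h2⟩
          · exfalso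
            apply ht
            rw [← h2]
            exact (hRmem _).2 ⟨e, rfl, hGB e h1⟩
          · exact ⟨h1.1, h2⟩
        · rintro ⟨h1, h2⟩
          exact ⟨Or.inr ⟨h1, by rw [h2]; exact ht⟩, h2⟩
      have hv : Val G' := by
        constructor
        · intro t
          by_cases ht : t ∈ R
          · rw [hSR t ht]
            by_cases hts : t = s
            · subst hts
              rw [if_pos rfl]
              right
              exact h4.1.symm
            · rw [if_neg hts]
              exact hFv.1 t
          · rw [hSn t ht]
            exact hFv.1 t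
        · intro C
          by_cases hC : C ∈ B
          · have h5 := hG2 ⟨C, hC⟩
            simp only at h5
            refine le_trans (le_of_eq ?_) h5
            rw [hG']
            simp only [hdQ]
            rw [← Finset.card_map (Function.Embedding.subtype _)]
            congr 1
            ext e
            simp only [Finset.mem_filter, Finset.mem_union, Finset.mem_map,
              Function.Embedding.coe_subtype]
            constructor
            · rintro ⟨h1 | h1, h2⟩
              · obtain ⟨y, hy, rfl⟩ := h1
                exact ⟨y, ⟨hy, Subtype.ext h2⟩, rfl⟩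
              · exfalso
                exact h1.2 ((hRmem _).2 ⟨e, rfl, by rw [h2]; exact hC⟩)
            · rintro ⟨y, ⟨hy, h2⟩, rfl⟩
              have h3 := congrArg Subtype.val h2
              simp only at h3
              exact ⟨Or.inl ⟨y, hy, rfl⟩, h3⟩
          · refine le_trans (Finset.card_le_card ?_) (hFv.2 C)
            intro e he
            simp only [hG', Finset.mem_filter, Finset.mem_union] at he ⊢
            rcases he with ⟨h1 | h1, h2⟩
            · exfalso
              apply hC
              rw [← h2]
              exact hGB e h1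
            · exact ⟨h1.1, h2⟩
      have hlt : n4 F < n4 G' := by
        simp only [hn4]
        apply Finset.card_lt_card
        rw [Finset.ssubset_iff_of_subset]
        · refine ⟨s, ?_, ?_⟩
          · simp only [Finset.mem_filter, Finset.mem_univ, true_and]
            refine ⟨h4.1, ?_⟩
            rw [hSR s hs, if_pos rfl]
          · simp only [Finset.mem_filter, Finset.mem_univ, true_and, not_and]
            intro _
            rw [h4.2]
            norm_num
        · intro t ht
          simp only [Finset.mem_filter, Finset.mem_univ, true_and] at ht ⊢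
          refine ⟨ht.1, ?_⟩
          by_cases htR : t ∈ R
          · rw [hSR t htR]
            split_ifs
            · rfl
            · exact ht.2
          · rw [hSn t htR]
            exact ht.2
      have := hmax4 G' hv
      omega

end Pool.Agent.H42.F14
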